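import Mathlib

/-! Cubic graphs with loops, multiple edges and semi-edges; coverings, bridges, cuts. -/

namespace Pool.Agent.V11242.SC

/-- A cubic graph (loops, multiple edges and semi-edges allowed) on the vertex set `V`.
The three edge-ends at the vertex `v` are `(v,0)`, `(v,1)`, `(v,2)`, and `lam` sends an edge-end to
the other end of its edge; it fixes an edge-end exactly when that is the end of a semi-edge. -/
structure CG (V : Type) where
  lam : V × Fin 3 → V × Fin 3
  inv : ∀ d, lam (lam d) = d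

abbrev K4 := ZMod 2 × ZMod 2

variable {V W : Type}

/-- `A` has a 3-edge-colouring. -/
def CG.Col (A : CG V) : Prop :=
  ∃ c : V × Fin 3 → Fin 3, (∀ d, c (A.lam d) = c d) ∧ ∀ v, Function.Injective fun i => c (v, i)

def CG.Col4 (A : CG V) : Prop :=
  ∃ c : V × Fin 3 → K4, (∀ d, c (A.lam d) = c d) ∧ (∀ d, c d ≠ 0) ∧
    ∀ v, c (v, 0) + c (v, 1) + c (v, 2) = 0

/-- Moving along an edge whose end is not in `B`. -/
def CG.St (A : CG V) (B : Set (V × Fin 3)) (x y : V) : Prop :=
  ∃ i, (x, i) ∉ B ∧ (A.lam (x, i)).1 = y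

def CG.R (A : CG V) (B : Set (V × Fin 3)) : V → V → Prop := Relation.ReflTransGen (A.St B)

def CG.E (A : CG V) (d : V × Fin 3) : Set (V × Fin 3) := {e | e = d ∨ e = A.lam d}

/-- the edge of `d` is not a bridge -/
def CG.NB (A : CG V) (d : V × Fin 3) : Prop := A.R (A.E d) d.1 (A.lam d).1

def CG.Cl (A : CG V) (B : Set (V × Fin 3)) : Prop := ∀ d, d ∈ B → A.lam d ∈ B

def CG.NS (A : CG V) : Prop := ∀ d, A.lam d ≠ d

def Cov (A : CG V) (C : CG W) (f : W → V) : Prop :=
  ∀ w i, A.lam (f w, i) = (f (C.lam (w, i)).1, (C.lam (w, i)).2)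

lemma CG.Cl_E (A : CG V) (d : V × Fin 3) : A.Cl (A.E d) := by
  rintro e (rfl | rfl)
  · right; rfl
  · left; exact A.inv _

lemma CG.Cl_empty (A : CG V) : A.Cl ∅ := fun _ h => h.elim

lemma CG.Cl_union (A : CG V) {B B' : Set (V × Fin 3)} (h : A.Cl B) (h' : A.Cl B') :
    A.Cl (B ∪ B') := by
  rintro d (hd | hd)
  · exact Or.inl (h d hd)
  · exact Or.inr (h' d hd)

lemma CG.St_symm (A : CG V) {B : Set (V × Fin 3)} (hB : A.Cl B) {x y : V} (h : A.St B x y) :
    A.St B y x := by
  obtain ⟨i, hi, rfl⟩ := h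
  refine ⟨(A.lam (x, i)).2, ?_, ?_⟩
  · intro hm
    apply hi
    have := hB _ hm
    rw [Prod.mk.eta, A.inv] at this
    exact this
  · rw [Prod.mk.eta, A.inv]

lemma CG.R_symm (A : CG V) {B : Set (V × Fin 3)} (hB : A.Cl B) {x y : V} (h : A.R B x y) :
    A.R B y x := by
  induction h with
  | refl => exact Relation.ReflTransGen.refl
  | tail _ h2 ih => exact Relation.ReflTransGen.head (A.St_symm hB h2) ih

lemma CG.R_trans (A : CG V) {B : Set (V × Fin 3)} {x y z : V} (h : A.R B x y) (h' : A.R B y z) :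
    A.R B x z := Relation.ReflTransGen.trans h h'

lemma CG.R_refl (A : CG V) (B : Set (V × Fin 3)) (x : V) : A.R B x x :=
  Relation.ReflTransGen.refl

lemma CG.R_step (A : CG V) {B : Set (V × Fin 3)} {x : V} {i : Fin 3} (h : (x, i) ∉ B) :
    A.R B x (A.lam (x, i)).1 := Relation.ReflTransGen.single ⟨i, h, rfl⟩

lemma CG.R_mono (A : CG V) {B B' : Set (V × Fin 3)} (hB : B' ⊆ B) {x y : V} (h : A.R B x y) :
    A.R B' x y := by
  induction h with
  | refl => exact Relation.ReflTransGen.refl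
  | tail _ h2 ih =>
    obtain ⟨i, hi, rfl⟩ := h2
    exact Relation.ReflTransGen.tail ih ⟨i, fun hh => hi (hB hh), rfl⟩

lemma CG.E_lam (A : CG V) (d : V × Fin 3) : A.E (A.lam d) = A.E d := by
  ext e
  simp only [CG.E, Set.mem_ofPred_eq, A.inv]
  exact Or.comm

lemma CG.NB_lam (A : CG V) {d : V × Fin 3} (h : A.NB d) : A.NB (A.lam d) := by
  unfold CG.NB at *
  rw [A.E_lam, A.inv]
  exact A.R_symm (A.Cl_E d) h

def phi : Fin 3 → K4 := ![(0, 1), (1, 0), (1, 1)]
def psi (x : K4) : Fin 3 := if x = (0, 1) then 0 else if x = (1, 0) then 1 else 2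

lemma phi_ne : ∀ a, phi a ≠ 0 := by decide
lemma phi_sum : ∀ a b c : Fin 3, a ≠ b → a ≠ c → b ≠ c → phi a + phi b + phi c = 0 := by decide
lemma psi_ne' : ∀ a b : K4, (a ≠ 0 ∧ b ≠ 0 ∧ a + b ≠ 0) →
    (psi a ≠ psi b ∧ psi a ≠ psi (a + b) ∧ psi b ≠ psi (a + b)) := by decide

lemma add_self_K4 : ∀ a : K4, a + a = 0 := by decide

lemma eq_of_sum {a b c : K4} (h : a + b + c = 0) : a + b = c := by
  have := add_self_K4 c
  calc a + b = a + b + (c + c) := by rw [this, add_zero]
    _ = (a + b + c) + c := by abel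
    _ = c := by rw [h, zero_add]

lemma psi_ne (a b c : K4) (ha : a ≠ 0) (hb : b ≠ 0) (hc : c ≠ 0) (h : a + b + c = 0) :
    psi a ≠ psi b ∧ psi a ≠ psi c ∧ psi b ≠ psi c := by
  obtain rfl := eq_of_sum h
  exact psi_ne' a b ⟨ha, hb, hc⟩

lemma CG.col_iff (A : CG V) : A.Col ↔ A.Col4 := by
  constructor
  · rintro ⟨c, h1, h2⟩
    refine ⟨fun d => phi (c d), fun d => congrArg phi (h1 d), fun d => phi_ne _, fun v => ?_⟩
    apply phi_sum
    · intro h; exact absurd (h2 v h) (by decide)
    · intro h; exact absurd (h2 v h) (by decide)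
    · intro h; exact absurd (h2 v h) (by decide)
  · rintro ⟨c, h1, h2, h3⟩
    refine ⟨fun d => psi (c d), fun d => congrArg psi (h1 d), fun v => ?_⟩
    obtain ⟨ha, hb, hc⟩ := psi_ne _ _ _ (h2 (v, 0)) (h2 (v, 1)) (h2 (v, 2)) (h3 v)
    intro i j hij
    fin_cases i <;> fin_cases j <;> first | rfl | (exfalso; simp at hij; first | exact ha hij | exact hb hij | exact hc hij | exact ha hij.symm | exact hb hij.symm | exact hc hij.symm)

lemma Cov.comp {U : Type} {A : CG V} {C : CG W} {D : CG U} {f : W → V} {g : U → W}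
    (h : Cov A C f) (h' : Cov C D g) : Cov A D (f ∘ g) := by
  intro w i
  simp only [Function.comp]
  rw [h, h']

lemma Cov.ns {A : CG V} {C : CG W} {f : W → V} (h : Cov A C f) (hs : A.NS) : C.NS := by
  rintro ⟨w, i⟩ he
  apply hs (f w, i)
  rw [h, he]

/-- Lifts of edges that are not bridges are not bridges. -/
lemma nb_lift [Fintype W] (A : CG V) (C : CG W) (f : W → V) (hc : Cov A C f) (hs : A.NS)
    (w : W) (i : Fin 3) (hn : A.NB (f w, i)) : C.NB (w, i) := by
  classical
  by_contra hb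
  let X : V → Finset W := fun x =>
    Finset.univ.filter fun w' => f w' = x ∧ C.R (C.E (w, i)) w w'
  have hinj : ∀ x i' w' w'', f w' = x → f w'' = x →
      (C.lam (w', i')).1 = (C.lam (w'', i')).1 → w' = w'' := by
    intro x i' w' w'' h1 h2 h3
    have e1 := hc w' i'
    have e2 := hc w'' i'
    rw [h1] at e1
    rw [h2, e1] at e2
    have h4 : (C.lam (w', i')).2 = (C.lam (w'', i')).2 := (Prod.ext_iff.1 e2).2
    have h5 : C.lam (w', i') = C.lam (w'', i') := Prod.ext h3 h4
    have h6 := congrArg C.lam h5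
    rw [C.inv, C.inv] at h6
    exact (Prod.ext_iff.1 h6).1
  have hstep : ∀ x y, A.St (A.E (f w, i)) x y → (X x).card ≤ (X y).card := by
    rintro x y ⟨i', hi', rfl⟩
    apply Finset.card_le_card_of_injOn (fun w' => (C.lam (w', i')).1)
    · intro w' hw'
      simp only [X, Finset.coe_filter, Finset.mem_univ, true_and, Set.mem_ofPred_eq] at hw' ⊢
      obtain ⟨rfl, h2⟩ := hw'
      refine ⟨?_, ?_⟩
      · rw [hc]
      · refine C.R_trans h2 (C.R_step ?_)
        rintro (he | he)
        · apply hi'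
          left
          obtain ⟨rfl, rfl⟩ := Prod.ext_iff.1 he
          rfl
        · apply hi'
          right
          rw [hc, ← he]
    · intro w' hw' w'' hw'' h3
      simp only [X, Finset.coe_filter, Finset.mem_univ, true_and, Set.mem_ofPred_eq] at hw' hw''
      exact hinj x i' w' w'' hw'.1 hw''.1 h3
  have hR : ∀ x y, A.R (A.E (f w, i)) x y → (X x).card ≤ (X y).card := by
    intro x y h
    induction h with
    | refl => exact le_rfl
    | tail _ h2 ih => exact ih.trans (hstep _ _ h2)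
  have h1 : (X (f w)).card ≤ (X (A.lam (f w, i)).1).card := hR _ _ hn
  have h2 : (X (A.lam (f w, i)).1).card ≤ ((X (f w)).erase w).card := by
    set j := (A.lam (f w, i)).2 with hj
    have hfl : A.lam ((A.lam (f w, i)).1, j) = (f w, i) := by
      rw [hj, Prod.mk.eta, A.inv]
    apply Finset.card_le_card_of_injOn (fun w' => (C.lam (w', j)).1)
    · intro w' hw'
      simp only [X, Finset.coe_filter, Finset.mem_univ, true_and, Set.mem_ofPred_eq] at hw'
      obtain ⟨h3, h4⟩ := hw'
      have h5 := hc w' j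
      rw [h3, hfl] at h5
      have h6 : f (C.lam (w', j)).1 = f w := (Prod.ext_iff.1 h5).1.symm
      have h7 : (C.lam (w', j)).2 = i := (Prod.ext_iff.1 h5).2.symm
      simp only [Finset.coe_erase, X, Finset.coe_filter, Finset.mem_univ, true_and,
        Set.mem_sdiff, Set.mem_ofPred_eq, Set.mem_singleton_iff]
      have hne : (w', j) ≠ C.lam (w, i) := by
        intro he
        apply hb
        show C.R (C.E (w, i)) w (C.lam (w, i)).1
        rw [← he]
        exact h4
      refine ⟨⟨h6, ?_⟩, ?_⟩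
      · refine C.R_trans h4 (C.R_step ?_)
        rintro (he | he)
        · have he1 : w' = w := (Prod.ext_iff.1 he).1
          have he2 : j = i := (Prod.ext_iff.1 he).2
          apply hs (f w, i)
          rw [he1] at h3
          exact Prod.ext h3.symm (by rw [← hj, he2])
        · exact hne he
      · intro he
        apply hne
        have h8 : C.lam (w', j) = (w, i) := Prod.ext he h7
        rw [← h8, C.inv]
    · intro w' hw' w'' hw'' h3
      simp only [X, Finset.coe_filter, Finset.mem_univ, true_and, Set.mem_ofPred_eq] at hw' hw''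
      exact hinj _ j w' w'' hw'.1 hw''.1 h3
  have h3 : w ∈ X (f w) := by
    simp only [X, Finset.mem_filter, Finset.mem_univ, true_and]
    exact C.R_refl _ _
  have h4 := Finset.card_erase_lt_of_mem h3
  omega

/-- The colours on the boundary of a vertex set sum to zero. -/
lemma cut [Fintype W] [DecidableEq W] (C : CG W) (hs : C.NS) (c : W × Fin 3 → K4)
    (h1 : ∀ d, c (C.lam d) = c d) (h3 : ∀ v, c (v, 0) + c (v, 1) + c (v, 2) = 0)
    (U : W → Prop) [DecidablePred U] :
    ∑ d ∈ Finset.univ.filter (fun d : W × Fin 3 => U d.1 ∧ ¬ U (C.lam d).1), c d = 0 := by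
  have e1 : ∑ d : W × Fin 3, (if U d.1 then c d else 0) = 0 := by
    rw [Fintype.sum_prod_type]
    apply Finset.sum_eq_zero
    intro w _
    by_cases h : U w
    · simp only [h, if_true, Fin.sum_univ_three, h3]
    · simp [h]
  have e2 : ∑ d ∈ Finset.univ.filter (fun d : W × Fin 3 => U d.1 ∧ U (C.lam d).1), c d = 0 := by
    apply Finset.sum_involution (fun d _ => C.lam d)
    · intro d _
      rw [h1]
      exact add_self_K4 _
    · intro d _ _
      exact hs d
    · intro d hd
      simp only [Finset.mem_filter, Finset.mem_univ, true_and, C.inv] at hd ⊢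
      exact ⟨hd.2, hd.1⟩
    · intro d _
      exact C.inv d
  have e3 : ∑ d : W × Fin 3, (if U d.1 then c d else 0) =
      ∑ d ∈ Finset.univ.filter (fun d : W × Fin 3 => U d.1 ∧ ¬ U (C.lam d).1), c d +
      ∑ d ∈ Finset.univ.filter (fun d : W × Fin 3 => U d.1 ∧ U (C.lam d).1), c d := by
    rw [Finset.sum_filter, Finset.sum_filter, ← Finset.sum_add_distrib]
    apply Finset.sum_congr rfl
    intro d _
    by_cases ha : U d.1 <;> by_cases hb : U (C.lam d).1 <;> simp [ha, hb]
  rw [e1, e2, add_zero] at e3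
  exact e3.symm

/-- Derived graph of a permutation voltage assignment. -/
def lift (A : CG V) {S : Type} (π : V × Fin 3 → S → S) (hπ : ∀ d s, π (A.lam d) (π d s) = s) :
    CG (V × S) where
  lam := fun d => (((A.lam (d.1.1, d.2)).1, π (d.1.1, d.2) d.1.2), (A.lam (d.1.1, d.2)).2)
  inv := by
    rintro ⟨⟨v, s⟩, i⟩
    simp [A.inv, hπ]

lemma lift_cov (A : CG V) {S : Type} (π : V × Fin 3 → S → S)
    (hπ : ∀ d s, π (A.lam d) (π d s) = s) : Cov A (lift A π hπ) Prod.fst := by
  rintro ⟨v, s⟩ i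
  rfl

/-- Doubling, to remove semi-edges. -/
lemma double [DecidableEq V] (A : CG V) (hn : ¬ A.Col4) :
    ∃ C : CG (V × Bool), Cov A C Prod.fst ∧ C.NS ∧ ¬ C.Col4 := by
  let π : V × Fin 3 → Bool → Bool := fun d b => if A.lam d = d then !b else b
  have hπ : ∀ d s, π (A.lam d) (π d s) = s := by
    intro d s
    by_cases h : A.lam d = d
    · simp [π, h]
    · have : A.lam (A.lam d) ≠ A.lam d := by
        rw [A.inv]; exact fun h' => h h'.symm
      simp only [π, h, this, if_false]
  refine ⟨lift A π hπ, lift_cov _ _ _, ?_, ?_⟩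
  · rintro ⟨⟨v, b⟩, i⟩ he
    have h1 := Prod.ext_iff.1 he
    have h2 := Prod.ext_iff.1 h1.1
    have h3 : A.lam (v, i) = (v, i) := Prod.ext h2.1 h1.2
    have h4 : (if A.lam (v, i) = (v, i) then !b else b) = b := h2.2
    rw [if_pos h3] at h4
    cases b <;> simp at h4
  · rintro ⟨c, h1, h2, h3⟩
    apply hn
    refine ⟨fun d => c ((d.1, false), d.2), ?_, fun d => h2 _, fun v => h3 (v, false)⟩
    intro d
    by_cases h : A.lam d = d
    · rw [h]
    · have h4 := h1 ((d.1, false), d.2)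
      have h5 : (lift A π hπ).lam ((d.1, false), d.2) =
          (((A.lam d).1, false), (A.lam d).2) := by
        show (((A.lam (d.1, d.2)).1, if A.lam (d.1, d.2) = (d.1, d.2) then !false else false), _) = _
        rw [Prod.mk.eta, if_neg h]
      rw [h5] at h4
      exact h4

/-- The component of `w0`. -/
def sub (C : CG W) (w0 : W) : CG {w // C.R ∅ w0 w} where
  lam := fun d => (⟨(C.lam (d.1.1, d.2)).1,
    C.R_trans d.1.2 (C.R_step (fun h => h.elim))⟩, (C.lam (d.1.1, d.2)).2)
  inv := by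
    rintro ⟨⟨v, s⟩, i⟩
    simp [C.inv]

lemma sub_cov (C : CG W) (w0 : W) : Cov C (sub C w0) Subtype.val := by
  rintro ⟨v, s⟩ i
  rfl

lemma sub_conn (C : CG W) (w0 : W) (x y : {w // C.R ∅ w0 w}) : (sub C w0).R ∅ x y := by
  have key : ∀ w (h : C.R ∅ w0 w), (sub C w0).R ∅ ⟨w0, C.R_refl _ _⟩ ⟨w, h⟩ := by
    intro w h
    induction h with
    | refl => exact CG.R_refl _ _ _
    | tail h1 h2 ih =>
      obtain ⟨i, hi, rfl⟩ := h2
      refine CG.R_trans _ ih ?_
      exact CG.R_step (sub C w0) (x := ⟨_, h1⟩) (i := i) (fun h => h.elim)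
  exact CG.R_trans _ (CG.R_symm _ (CG.Cl_empty _) (key x.1 x.2)) (key y.1 y.2)

lemma comp_ncol (C : CG W) (hn : ¬ C.Col4) : ∃ w0 : W, ¬ (sub C w0).Col4 := by
  classical
  by_contra hcon
  push Not at hcon
  choose c h1 h2 h3 using hcon
  let st : Setoid W := ⟨C.R ∅, ⟨C.R_refl _, C.R_symm C.Cl_empty, C.R_trans⟩⟩
  let rep : W → W := fun w => (Quotient.mk st w).out
  have hrep : ∀ w, C.R ∅ (rep w) w := fun w => Quotient.exact (Quotient.out_eq (Quotient.mk st w))
  have hrr : ∀ w w', C.R ∅ w w' → rep w = rep w' := by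
    intro w w' h
    show (Quotient.mk st w).out = (Quotient.mk st w').out
    rw [Quotient.sound (s := st) h]
  let g : W → W → Fin 3 → K4 := fun w0 w i => if h : C.R ∅ w0 w then c w0 (⟨w, h⟩, i) else 0
  have hg : ∀ w i, g (rep w) w i = c (rep w) (⟨w, hrep w⟩, i) := by
    intro w i
    simp only [g]
    rw [dif_pos (hrep w)]
  apply hn
  refine ⟨fun d => g (rep d.1) d.1 d.2, ?_, ?_, ?_⟩
  · rintro ⟨w, i⟩
    have e : rep (C.lam (w, i)).1 = rep w := (hrr _ _ (C.R_step (fun h => h.elim))).symm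
    show g (rep (C.lam (w, i)).1) (C.lam (w, i)).1 (C.lam (w, i)).2 = g (rep w) w i
    rw [e, hg]
    have h4 : C.R ∅ (rep w) (C.lam (w, i)).1 := C.R_trans (hrep w) (C.R_step (fun h => h.elim))
    simp only [g]
    rw [dif_pos h4]
    exact h1 (rep w) (⟨w, hrep w⟩, i)
  · rintro ⟨w, i⟩
    show g (rep w) w i ≠ 0
    rw [hg]
    exact h2 _ _
  · intro v
    show g (rep v) v 0 + g (rep v) v 1 + g (rep v) v 2 = 0
    rw [hg, hg, hg]
    exact h3 _ _

end Pool.Agent.V11242.SC
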