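import Pool.Agent.V11242.SC.Pet3

/-! Assembly: every cubic graph without 3-edge-colouring is covered by a 2-connected simple graph
without 3-edge-colouring. -/

namespace Pool.Agent.V11242.SC

variable {V W : Type}

lemma bridge_cover [Finite V] (A : CG V) (hs : A.NS) (hconn : ∀ x y, A.R ∅ x y)
    (hb : ∃ d, ¬ A.NB d) :
    ∃ (X : Type) (_ : Finite X) (C : CG X) (f : X → V), Cov A C f ∧ (∀ d, C.NB d) ∧ ¬ C.Col4 := by
  classical
  have := Fintype.ofFinite V
  obtain ⟨f0, hf, hleaf⟩ := exists_leaf A hb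
  have hj : ∀ a : Fin 3, ∃ j : Fin 3, j ≠ a := by decide
  obtain ⟨j, hj⟩ := hj f0.2
  have L : LD A f0 (f0.1, j) := ⟨hs, hconn, hf, hleaf, rfl, fun h => hj (by rw [← h])⟩
  obtain ⟨ρ, hρ1, hρ2⟩ := Finset.exists_cycleOn (Finset.univ.filter (fun s : Gm V => s ≠ 0))
  have hρ : ρ 0 = 0 := by
    by_contra h
    have h1 : (0 : Gm V) ∈ ρ.support := by rw [Equiv.Perm.mem_support]; exact h
    have h2 := hρ2 h1
    simp at h2
  set s1 : Gm V := kk A f0 with hs1d
  have hs1 : s1 ≠ 0 := kk_ne A hs f0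
  have hρne : ∀ s, s ≠ 0 → ρ s ≠ 0 := fun s hs h => hs (ρ.injective (by rw [h, hρ]))
  have hcyc : ∀ s, s ≠ 0 → ∃ k : ℕ, (ρ ^ k) (ρ s1) = s := by
    intro s hs0
    have h1 : ρ s1 ∈ (Finset.univ.filter (fun s : Gm V => s ≠ 0)) := by
      simp [hρne s1 hs1]
    have h2 : s ∈ (Finset.univ.filter (fun s : Gm V => s ≠ 0)) := by simp [hs0]
    obtain ⟨n, _, hn⟩ := hρ1.exists_pow_eq h1 h2
    exact ⟨n, hn⟩
  have hcov : Cov A (PC A L.ns f0 (f0.1, j) ρ s1) Prod.fst := lift_cov A _ _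
  refine ⟨V × Sp V, inferInstance, PC A L.ns f0 (f0.1, j) ρ s1, Prod.fst, hcov, ?_,
    PC_ncol L hρ hs1⟩
  rintro ⟨⟨p, t⟩, i⟩
  by_cases hnb : A.NB (p, i)
  · exact nb_lift A _ Prod.fst hcov hs (p, t) i hnb
  · rcases conn_or A hconn (p, i) f0.1 with h | h
    · exact PC_nb_main L hρ hs1 hcyc (p, i) hnb h t
    · have hnb' : ¬ A.NB (A.lam (p, i)) := by
        intro h
        apply hnb
        have := A.NB_lam h
        rwa [A.inv] at this
      have h1 : A.R (A.E (A.lam (p, i))) (A.lam (p, i)).1 f0.1 := by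
        rw [A.E_lam]; exact h
      have h2 := PC_nb_main L hρ hs1 hcyc (A.lam (p, i)) hnb' h1
        (qq A f0 (f0.1, j) ρ s1 (p, i) t)
      have h3 := CG.NB_lam _ h2
      have h4 : (PC A L.ns f0 (f0.1, j) ρ s1).lam
          (((A.lam (p, i)).1, qq A f0 (f0.1, j) ρ s1 (p, i) t), (A.lam (p, i)).2) =
          ((p, t), i) := by
        have h5 := (PC A L.ns f0 (f0.1, j) ρ s1).inv ((p, t), i)
        exact h5
      rw [h4] at h3
      exact h3

lemma main_cover [Finite V] (A : CG V) (hn : ¬ A.Col4) :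
    ∃ (X : Type) (_ : Finite X) (C : CG X) (f : X → V), Nonempty X ∧ Cov A C f ∧ C.NS ∧
      (∀ d, C.NB d) ∧ C.Simp ∧ (∀ x y, C.R ∅ x y) ∧ ¬ C.Col4 := by
  classical
  obtain ⟨A1, hc1, hs1, hn1⟩ := double A hn
  obtain ⟨w1, hn2⟩ := comp_ncol A1 hn1
  have hc2 := sub_cov A1 w1
  have hs2 : (sub A1 w1).NS := hc2.ns hs1
  have hconn2 := sub_conn A1 w1
  -- bridgeless cover
  obtain ⟨X, hX, B, f, hcB, hbB, hnB⟩ : ∃ (X : Type) (_ : Finite X) (C : CG X)
      (f : X → {w // A1.R ∅ w1 w}), Cov (sub A1 w1) C f ∧ (∀ d, C.NB d) ∧ ¬ C.Col4 := by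
    by_cases hb : ∃ d, ¬ (sub A1 w1).NB d
    · exact bridge_cover (sub A1 w1) hs2 hconn2 hb
    · push Not at hb
      exact ⟨_, inferInstance, sub A1 w1, id, fun w i => rfl, hb, hn2⟩
  have := Fintype.ofFinite X
  have hsB : B.NS := hcB.ns hs2
  obtain ⟨D, hcD, hSD, hnD⟩ := simple_cover B hsB hnB
  have hsD : D.NS := hcD.ns hsB
  have hbD : ∀ d, D.NB d := fun d => nb_lift B D Prod.fst hcD hsB d.1 d.2 (hbB _)
  obtain ⟨w3, hn3⟩ := comp_ncol D hnD
  have hc3 := sub_cov D w3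
  have hcov := ((hc1.comp hc2).comp hcB).comp (hcD.comp hc3)
  have := Fintype.ofFinite {w // D.R ∅ w3 w}
  refine ⟨{w // D.R ∅ w3 w}, inferInstance, sub D w3, _, ⟨⟨w3, D.R_refl _ _⟩⟩, hcov,
    hc3.ns hsD, ?_, ⟨?_, ?_⟩, sub_conn D w3, hn3⟩
  · intro d
    exact nb_lift D (sub D w3) Subtype.val hc3 hsD d.1 d.2 (hbD _)
  · rintro ⟨w, hw⟩ i h
    exact hSD.1 w i (congrArg Subtype.val h)
  · rintro ⟨w, hw⟩ i j h
    exact hSD.2 w i j (congrArg Subtype.val h)

/-- The simple graph of a simple `CG`. -/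
def toG (C : CG W) (hS : C.Simp) : SimpleGraph W where
  Adj x y := ∃ i, (C.lam (x, i)).1 = y
  symm := ⟨by
    rintro x y ⟨i, rfl⟩
    exact ⟨(C.lam (x, i)).2, by rw [Prod.mk.eta, C.inv]⟩⟩
  loopless := ⟨by
    rintro x ⟨i, h⟩
    exact hS.1 x i h⟩

/-- 2-connected: connected, at least three vertices, and no vertex separates. -/
def TwoConnected (H : SimpleGraph W) : Prop :=
  H.Connected ∧ 3 ≤ Nat.card W ∧ ∀ v : W, (H.induce {v}ᶜ).Connected

lemma two_conn [Finite W] [Nonempty W] (C : CG W) (hS : C.Simp) (hconn : ∀ x y, C.R ∅ x y)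
    (hb : ∀ d, C.NB d) : TwoConnected (toG C hS) := by
  classical
  have := Fintype.ofFinite W
  have hadj : ∀ x i, (toG C hS).Adj x (C.lam (x, i)).1 := fun x i => ⟨i, rfl⟩
  refine ⟨?_, ?_, ?_⟩
  · rw [SimpleGraph.connected_iff]
    refine ⟨?_, inferInstance⟩
    intro x y
    have h := hconn x y
    induction h with
    | refl => exact SimpleGraph.Reachable.refl _
    | @tail a b h1 h2 ih =>
      obtain ⟨i, _, rfl⟩ := h2
      exact ih.trans (hadj a i).reachable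
  · obtain ⟨v⟩ := ‹Nonempty W›
    have h01 : (C.lam (v, 0)).1 ≠ (C.lam (v, 1)).1 :=
      fun h => absurd (hS.2 v 0 1 h) (by decide)
    have hc : ({v, (C.lam (v, 0)).1, (C.lam (v, 1)).1} : Finset W).card = 3 := by
      rw [Finset.card_insert_of_notMem, Finset.card_insert_of_notMem, Finset.card_singleton]
      · simpa using h01
      · simp only [Finset.mem_insert, Finset.mem_singleton]
        rintro (h | h)
        · exact hS.1 v 0 h.symm
        · exact hS.1 v 1 h.symm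
    rw [Nat.card_eq_fintype_card, ← hc]
    exact Finset.card_le_univ _
  · intro v
    let Rv : W → W → Prop := fun a b => ∃ (ha : a ∈ ({v}ᶜ : Set W)) (hb : b ∈ ({v}ᶜ : Set W)),
      ((toG C hS).induce {v}ᶜ).Reachable ⟨a, ha⟩ ⟨b, hb⟩
    have hrefl : ∀ a, a ≠ v → Rv a a := fun a ha =>
      ⟨ha, ha, SimpleGraph.Reachable.refl _⟩
    have hsymm : ∀ a b, Rv a b → Rv b a := fun a b ⟨ha, hb, h⟩ => ⟨hb, ha, h.symm⟩
    have htrans : ∀ a b c, Rv a b → Rv b c → Rv a c :=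
      fun a b c ⟨ha, hb, h⟩ ⟨_, hc, h'⟩ => ⟨ha, hc, h.trans h'⟩
    have hstep : ∀ a i, a ≠ v → (C.lam (a, i)).1 ≠ v → Rv a (C.lam (a, i)).1 := by
      intro a i ha hb
      refine ⟨ha, hb, SimpleGraph.Adj.reachable ?_⟩
      exact hadj a i
    have hn : ∀ i, (C.lam (v, i)).1 ≠ v := fun i => hS.1 v i
    have l1 : ∀ x, C.R ∅ v x → x = v ∨ ∃ i, Rv (C.lam (v, i)).1 x := by
      intro x hx
      induction hx with
      | refl => exact Or.inl rfl
      | @tail a b h1 h2 ih =>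
        obtain ⟨i, _, rfl⟩ := h2
        by_cases hbv : (C.lam (a, i)).1 = v
        · exact Or.inl hbv
        · right
          rcases ih with rfl | ⟨k, hk⟩
          · exact ⟨i, hrefl _ (hn i)⟩
          · obtain ⟨_, ha, _⟩ := id hk
            exact ⟨k, htrans _ _ _ hk (hstep a i ha hbv)⟩
    have l2 : ∀ i, ∃ k, k ≠ i ∧ Rv (C.lam (v, k)).1 (C.lam (v, i)).1 := by
      intro i
      have key : ∀ x, C.R (C.E (v, i)) v x → x = v ∨ ∃ k, k ≠ i ∧ Rv (C.lam (v, k)).1 x := by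
        intro x hx
        induction hx with
        | refl => exact Or.inl rfl
        | @tail a b h1 h2 ih =>
          obtain ⟨j, hj, rfl⟩ := h2
          by_cases hbv : (C.lam (a, j)).1 = v
          · exact Or.inl hbv
          · right
            rcases ih with rfl | ⟨k, hki, hk⟩
            · exact ⟨j, fun h => hj (Or.inl (by rw [h])), hrefl _ (hn j)⟩
            · obtain ⟨_, ha, _⟩ := id hk
              exact ⟨k, hki, htrans _ _ _ hk (hstep a j ha hbv)⟩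
      rcases key _ (hb (v, i)) with h | h
      · exact absurd h (hn i)
      · exact h
    have l3 : ∀ i k, Rv (C.lam (v, i)).1 (C.lam (v, k)).1 := by
      have h01or : ∀ i k, Rv (C.lam (v, i)).1 (C.lam (v, k)).1 →
          Rv (C.lam (v, k)).1 (C.lam (v, i)).1 := fun i k h => hsymm _ _ h
      have h0 : Rv (C.lam (v, 0)).1 (C.lam (v, 0)).1 := hrefl _ (hn 0)
      have h1 : Rv (C.lam (v, 1)).1 (C.lam (v, 1)).1 := hrefl _ (hn 1)
      have h2 : Rv (C.lam (v, 2)).1 (C.lam (v, 2)).1 := hrefl _ (hn 2)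
      have p : Rv (C.lam (v, 0)).1 (C.lam (v, 1)).1 ∧ Rv (C.lam (v, 0)).1 (C.lam (v, 2)).1 := by
        obtain ⟨a, ha, ha'⟩ := l2 0
        obtain ⟨b, hb, hb'⟩ := l2 1
        obtain ⟨c, hc, hc'⟩ := l2 2
        have q0 : ∀ a : Fin 3, a ≠ 0 → a = 1 ∨ a = 2 := by decide
        have q1 : ∀ a : Fin 3, a ≠ 1 → a = 0 ∨ a = 2 := by decide
        have q2 : ∀ a : Fin 3, a ≠ 2 → a = 0 ∨ a = 1 := by decide
        have ha3 := q0 a ha
        have hb3 := q1 b hb
        have hc3 := q2 c hc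
        rcases ha3 with rfl | rfl
        · rcases hc3 with rfl | rfl
          · exact ⟨hsymm _ _ ha', hc'⟩
          · exact ⟨hsymm _ _ ha', htrans _ _ _ (hsymm _ _ ha') hc'⟩
        · rcases hb3 with rfl | rfl
          · exact ⟨hb', hsymm _ _ ha'⟩
          · exact ⟨htrans _ _ _ (hsymm _ _ ha') hb', hsymm _ _ ha'⟩
      have p01 := p.1
      have p02 := p.2
      have p12 := htrans _ _ _ (hsymm _ _ p01) p02
      have p10 := hsymm _ _ p01
      have p20 := hsymm _ _ p02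
      have p21 := hsymm _ _ p12
      intro i k
      fin_cases i <;> fin_cases k <;> assumption
    rw [SimpleGraph.connected_iff]
    refine ⟨?_, ⟨⟨(C.lam (v, 0)).1, hn 0⟩⟩⟩
    rintro ⟨x, hx⟩ ⟨y, hy⟩
    rcases l1 x (hconn v x) with h | ⟨i, hi⟩
    · exact absurd h hx
    · rcases l1 y (hconn v y) with h | ⟨k, hk⟩
      · exact absurd h hy
      · obtain ⟨_, _, h⟩ := htrans _ _ _ (htrans _ _ _ (hsymm _ _ hi) (l3 i k)) hk
        exact h

end Pool.Agent.V11242.SC
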