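import Pool.Agent.V11242.SC.Simple

/-! Bridges of a cubic graph, and a leaf block. -/

namespace Pool.Agent.V11242.SC

variable {V W : Type}

lemma conn_or (A : CG V) (hconn : ∀ x y, A.R ∅ x y) (d : V × Fin 3) (w : V) :
    A.R (A.E d) d.1 w ∨ A.R (A.E d) (A.lam d).1 w := by
  have h := hconn d.1 w
  induction h with
  | refl => exact Or.inl (A.R_refl _ _)
  | @tail x y h1 h2 ih =>
    obtain ⟨i, _, rfl⟩ := h2
    by_cases hE : (x, i) ∈ A.E d
    · rcases hE with he | he
      · right
        rw [he]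
        exact A.R_refl _ _
      · left
        rw [he, A.inv]
        exact A.R_refl _ _
    · rcases ih with ih | ih
      · exact Or.inl (A.R_trans ih (A.R_step hE))
      · exact Or.inr (A.R_trans ih (A.R_step hE))

lemma exists_nb [Fintype V] (A : CG V) : ∀ (n : ℕ) (d : V × Fin 3),
    {w | A.R (A.E d) (A.lam d).1 w}.ncard ≤ n → ¬ A.NB d →
    ∃ h, A.NB h ∧ A.R (A.E d) (A.lam d).1 h.1 := by
  intro n
  induction n with
  | zero =>
    intro d hn _
    exfalso
    have h1 : {w | A.R (A.E d) (A.lam d).1 w}.ncard = 0 := by omega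
    rw [Set.ncard_eq_zero (Set.toFinite _)] at h1
    have h2 : (A.lam d).1 ∈ {w | A.R (A.E d) (A.lam d).1 w} := A.R_refl _ _
    rw [h1] at h2
    exact h2
  | succ n ih =>
    intro d hn hd
    have hj : ∀ a : Fin 3, ∃ j : Fin 3, j ≠ a := by decide
    obtain ⟨j, hj⟩ := hj (A.lam d).2
    set q := (A.lam d).1 with hq
    by_cases hb : A.NB (q, j)
    · exact ⟨(q, j), hb, A.R_refl _ _⟩
    · have hdq : d.1 ≠ q := by
        intro h
        apply hd
        unfold CG.NB
        rw [← hq, h]
        exact A.R_refl _ _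
      have hbE : (q, j) ∉ A.E d := by
        rintro (h | h)
        · exact hdq (by rw [← h])
        · exact hj (by rw [← h])
      have hnq : ¬ A.R (A.E (q, j)) (A.lam (q, j)).1 q :=
        fun h => hb (A.R_symm (A.Cl_E _) h)
      have claim : ∀ w, A.R (A.E (q, j)) (A.lam (q, j)).1 w → A.R (A.E d) q w := by
        intro w h
        induction h with
        | refl => exact A.R_step hbE
        | @tail x y h1 h2 ih =>
          obtain ⟨i, hi, rfl⟩ := h2
          refine A.R_trans ih (A.R_step ?_)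
          rintro (he | he)
          · apply hnq
            have := A.R_trans h1 (A.R_step hi)
            rw [he] at this
            exact this
          · apply hnq
            have : x = q := by rw [hq, ← he]
            rw [← this]
            exact this ▸ h1
      have hlt : {w | A.R (A.E (q, j)) (A.lam (q, j)).1 w}.ncard < {w | A.R (A.E d) q w}.ncard := by
        apply Set.ncard_lt_ncard _ (Set.toFinite _)
        refine ⟨fun w hw => claim w hw, fun hsub => hnq (hsub (A.R_refl _ q))⟩
      obtain ⟨h, h1, h2⟩ := ih (q, j) (by omega) hb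
      exact ⟨h, h1, claim _ h2⟩

lemma exists_leaf [Fintype V] (A : CG V) (hb : ∃ d, ¬ A.NB d) :
    ∃ f0, ¬ A.NB f0 ∧ ∀ d, A.R (A.E f0) f0.1 d.1 → d ≠ f0 → A.NB d := by
  obtain ⟨d0, hd0⟩ := hb
  obtain ⟨f0, h1, h2⟩ := Set.exists_min_image {d | ¬ A.NB d}
    (fun d => {w | A.R (A.E d) d.1 w}.ncard) (Set.toFinite _) ⟨d0, hd0⟩
  refine ⟨f0, h1, ?_⟩
  have claim : ∀ d', ¬ A.NB d' → A.R (A.E f0) f0.1 d'.1 → ¬ A.R (A.E d') d'.1 f0.1 → False := by
    intro d' hd' hin hout
    have hsub : ∀ w, A.R (A.E d') d'.1 w → A.R (A.E f0) f0.1 w := by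
      intro w h
      induction h with
      | refl => exact hin
      | @tail x y h1 h2 ih =>
        obtain ⟨i, hi, rfl⟩ := h2
        refine A.R_trans ih (A.R_step ?_)
        rintro (he | he)
        · apply hout
          have : x = f0.1 := by rw [← he]
          rw [← this]
          exact h1
        · apply hout
          have := A.R_trans h1 (A.R_step hi)
          rw [he, A.inv] at this
          exact this
    have hlt : {w | A.R (A.E d') d'.1 w}.ncard < {w | A.R (A.E f0) f0.1 w}.ncard := by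
      apply Set.ncard_lt_ncard _ (Set.toFinite _)
      refine ⟨fun w hw => hsub w hw, fun hsub => hout (hsub (A.R_refl _ f0.1))⟩
    have := h2 d' hd'
    omega
  intro d hd hne
  by_contra hnb
  by_cases hu : A.R (A.E d) d.1 f0.1
  · have hd2 : A.R (A.E f0) f0.1 (A.lam d).1 := by
      refine A.R_trans hd (A.R_step (i := d.2) ?_)
      rintro (he | he)
      · exact hne he
      · apply h1
        have : d.1 = (A.lam f0).1 := by rw [← he]
        show A.R (A.E f0) f0.1 (A.lam f0).1
        rw [← this]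
        exact hd
    apply claim (A.lam d) (fun h => hnb ?_) hd2
    · rw [A.E_lam]
      intro h
      exact hnb (A.R_trans hu (A.R_symm (A.Cl_E d) h))
    · have := A.NB_lam h
      rw [A.inv] at this
      exact this
  · exact claim d hnb hd hu

/-- Avoiding a bridge. -/
lemma avoid2 (A : CG V) (e h : V × Fin 3) (he : ¬ A.NB e) (x0 y : V)
    (hx : A.R (A.E e) (A.lam e).1 x0) (hy : A.R (A.E e) (A.lam e).1 y)
    (hxy : A.R (A.E h) x0 y) : A.R (A.E e ∪ A.E h) x0 y := by
  have hp : ¬ A.R (A.E e) (A.lam e).1 e.1 := fun h => he (A.R_symm (A.Cl_E e) h)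
  have key : ∀ w, A.R (A.E h) x0 w →
      (A.R (A.E e) (A.lam e).1 w → A.R (A.E e ∪ A.E h) x0 w) ∧
      (¬ A.R (A.E e) (A.lam e).1 w → A.R (A.E e ∪ A.E h) x0 (A.lam e).1) := by
    intro w hw
    induction hw with
    | refl => exact ⟨fun _ => A.R_refl _ _, fun h => absurd hx h⟩
    | @tail x y h1 h2 ih =>
      obtain ⟨i, hi, rfl⟩ := h2
      by_cases hE : (x, i) ∈ A.E e
      · rcases hE with hh | hh
        · have hxe : x = e.1 := by rw [← hh]
          rw [hh]
          have := ih.2 (by rw [hxe]; exact hp)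
          exact ⟨fun _ => this, fun _ => this⟩
        · have hxe : x = (A.lam e).1 := by rw [← hh]
          rw [hh, A.inv]
          have := ih.1 (by rw [hxe]; exact A.R_refl _ _)
          rw [hxe] at this
          exact ⟨fun h => absurd h hp, fun _ => this⟩
      · have hst : A.R (A.E e) x (A.lam (x, i)).1 := A.R_step hE
        refine ⟨fun h => ?_, fun h => ?_⟩
        · have hx' := A.R_trans h (A.R_symm (A.Cl_E e) hst)
          refine A.R_trans (ih.1 hx') (A.R_step ?_)
          rintro (hm | hm)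
          · exact hE hm
          · exact hi hm
        · exact ih.2 (fun h' => h (A.R_trans h' hst))
  exact (key y hxy).1 hy

structure LD (A : CG V) (f0 g : V × Fin 3) : Prop where
  ns : A.NS
  conn : ∀ x y, A.R ∅ x y
  hf : ¬ A.NB f0
  leaf : ∀ d, A.R (A.E f0) f0.1 d.1 → d ≠ f0 → A.NB d
  hg1 : g.1 = f0.1
  hg : g ≠ f0

section
variable {A : CG V} {f0 g : V × Fin 3} (L : LD A f0 g)

/-- the leaf block -/
def inA (A : CG V) (f0 : V × Fin 3) (w : V) : Prop := A.R (A.E f0) f0.1 w

include L

lemma LD.in_u : inA A f0 f0.1 := A.R_refl _ _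

lemma LD.in_g : inA A f0 g.1 := by rw [L.hg1]; exact L.in_u

lemma LD.not_v : ¬ inA A f0 (A.lam f0).1 := L.hf

lemma LD.closed {d : V × Fin 3} (h : inA A f0 d.1) (hd : d ≠ f0) : inA A f0 (A.lam d).1 := by
  refine A.R_trans h (A.R_step (i := d.2) ?_)
  rintro (he | he)
  · exact hd he
  · apply L.not_v
    have : d.1 = (A.lam f0).1 := by rw [← he]
    rw [← this]
    exact h

lemma LD.out {d : V × Fin 3} (h : inA A f0 d.1) (hd : ¬ inA A f0 (A.lam d).1) : d = f0 := by
  by_contra hne
  exact hd (L.closed h hne)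

lemma LD.nbg : A.NB g := L.leaf g L.in_g L.hg

lemma LD.in_lg : inA A f0 (A.lam g).1 := L.closed L.in_g L.hg

lemma LD.lg_ne : A.lam g ≠ f0 := by
  intro h
  have := A.NB_lam L.nbg
  rw [h] at this
  exact L.hf this

lemma LD.pathg : A.R (A.E f0 ∪ A.E g) (A.lam g).1 f0.1 := by
  have h := avoid2 A (A.lam f0) g (fun h => L.hf (by have := A.NB_lam h; rwa [A.inv] at this))
    (A.lam g).1 f0.1
  rw [A.E_lam, A.inv] at h
  apply h L.in_lg L.in_u
  have := A.R_symm (A.Cl_E g) L.nbg
  rw [L.hg1] at this
  exact this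

end

end Pool.Agent.V11242.SC
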