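import Pool.Agent.V11242.SC.Leaf

/-! The Petersen type cover of a cubic graph with a bridge. -/

namespace Pool.Agent.V11242.SC

variable {V : Type}

abbrev Gm (V : Type) := V × Fin 3 → ZMod 3
abbrev Sp (V : Type) := Gm V × ZMod 5

section
set_option linter.unusedSectionVars false
variable [Fintype V] [DecidableEq V]

open Classical in
/-- the translation voltage -/
noncomputable def vo (A : CG V) (f0 d : V × Fin 3) : Gm V :=
  if inA A f0 d.1 ∨ inA A f0 (A.lam d).1 then 0 else kk A d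

lemma vo_lam (A : CG V) (f0 d : V × Fin 3) : vo A f0 (A.lam d) = - vo A f0 d := by
  unfold vo
  rw [A.inv]
  by_cases h : inA A f0 d.1 ∨ inA A f0 (A.lam d).1
  · rw [if_pos h, if_pos (Or.comm.1 h), neg_zero]
  · rw [if_neg h, if_neg (fun h' => h (Or.comm.1 h')), kk_lam]

def ta (s1 : Gm V) (s : Gm V) : ZMod 5 := if s = 0 then 1 else if s = s1 then 2 else 0

def GG (ρ : Equiv.Perm (Gm V)) (s1 : Gm V) (t : Sp V) : Sp V := (ρ t.1, t.2 + ta s1 t.1)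
def GI (ρ : Equiv.Perm (Gm V)) (s1 : Gm V) (t : Sp V) : Sp V :=
  (ρ.symm t.1, t.2 - ta s1 (ρ.symm t.1))

lemma GI_GG (ρ : Equiv.Perm (Gm V)) (s1 : Gm V) (t : Sp V) : GI ρ s1 (GG ρ s1 t) = t := by
  simp [GI, GG]

lemma GG_GI (ρ : Equiv.Perm (Gm V)) (s1 : Gm V) (t : Sp V) : GG ρ s1 (GI ρ s1 t) = t := by
  simp [GI, GG]

noncomputable def qq (A : CG V) (f0 g : V × Fin 3) (ρ : Equiv.Perm (Gm V)) (s1 : Gm V)
    (d : V × Fin 3) (t : Sp V) : Sp V :=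
  if d = g then GG ρ s1 t else if d = A.lam g then GI ρ s1 t else (t.1 + vo A f0 d, t.2)

lemma qq_inv (A : CG V) (hs : A.NS) (f0 g : V × Fin 3) (ρ : Equiv.Perm (Gm V)) (s1 : Gm V)
    (d : V × Fin 3) (t : Sp V) :
    qq A f0 g ρ s1 (A.lam d) (qq A f0 g ρ s1 d t) = t := by
  unfold qq
  by_cases h1 : d = g
  · subst h1
    rw [if_pos rfl, if_neg (hs d), if_pos rfl, GI_GG]
  · by_cases h2 : d = A.lam g
    · subst h2
      rw [if_neg h1, if_pos rfl, A.inv, if_pos rfl, GG_GI]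
    · have h3 : A.lam d ≠ g := fun h => h2 (by rw [← h, A.inv])
      have h4 : A.lam d ≠ A.lam g := fun h => h1 (by rw [← A.inv d, h, A.inv])
      rw [if_neg h1, if_neg h2, if_neg h3, if_neg h4, vo_lam]
      simp

/-- The cover. -/
noncomputable def PC (A : CG V) (hs : A.NS) (f0 g : V × Fin 3) (ρ : Equiv.Perm (Gm V))
    (s1 : Gm V) : CG (V × Sp V) := lift A (qq A f0 g ρ s1) (qq_inv A hs f0 g ρ s1)

def chk (a0 a1 a2 a3 a4 b0 : K4) : Bool :=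
  decide (a0 = 0) || decide (a1 = 0) || decide (a2 = 0) || decide (a3 = 0) || decide (a4 = 0) ||
  decide (b0 = 0) || decide (a0 + a4 = 0) || decide (a1 + a0 = 0) || decide (a2 + a1 = 0) ||
  decide (a3 + a2 = 0) || decide (a4 + a3 = 0) ||
  decide ((a2 + a1) + b0 = 0) || decide ((a4 + a3) + ((a2 + a1) + b0) = 0) ||
  decide ((a1 + a0) + ((a4 + a3) + ((a2 + a1) + b0)) = 0) ||
  decide ((a3 + a2) + ((a1 + a0) + ((a4 + a3) + ((a2 + a1) + b0))) = 0) ||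
  !decide ((a0 + a4) + ((a3 + a2) + ((a1 + a0) + ((a4 + a3) + ((a2 + a1) + b0)))) = b0)

lemma chk_all : ∀ a0 a1 a2 a3 a4 b0 : K4, chk a0 a1 a2 a3 a4 b0 = true := by
  decide +kernel

lemma petersen_aux (a0 a1 a2 a3 a4 b0 : K4) :
    (a0 ≠ 0 ∧ a1 ≠ 0 ∧ a2 ≠ 0 ∧ a3 ≠ 0 ∧ a4 ≠ 0 ∧ b0 ≠ 0 ∧
    a0 + a4 ≠ 0 ∧ a1 + a0 ≠ 0 ∧ a2 + a1 ≠ 0 ∧ a3 + a2 ≠ 0 ∧ a4 + a3 ≠ 0 ∧
    (a2 + a1) + b0 ≠ 0 ∧ (a4 + a3) + ((a2 + a1) + b0) ≠ 0 ∧
    (a1 + a0) + ((a4 + a3) + ((a2 + a1) + b0)) ≠ 0 ∧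
    (a3 + a2) + ((a1 + a0) + ((a4 + a3) + ((a2 + a1) + b0))) ≠ 0 ∧
    (a0 + a4) + ((a3 + a2) + ((a1 + a0) + ((a4 + a3) + ((a2 + a1) + b0)))) = b0) → False := by
  rintro ⟨h1, h2, h3, h4, h5, h6, h7, h8, h9, h10, h11, h12, h13, h14, h15, h16⟩
  have h := chk_all a0 a1 a2 a3 a4 b0
  unfold chk at h
  rw [decide_eq_false h1, decide_eq_false h2, decide_eq_false h3, decide_eq_false h4,
    decide_eq_false h5, decide_eq_false h6, decide_eq_false h7, decide_eq_false h8,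
    decide_eq_false h9, decide_eq_false h10, decide_eq_false h11, decide_eq_false h12,
    decide_eq_false h13, decide_eq_false h14, decide_eq_false h15, decide_eq_true h16] at h
  simp at h

lemma petersen (F a b : ZMod 5 → K4) (hF : ∀ z, F z ≠ 0) (ha : ∀ z, a z ≠ 0) (hb : ∀ z, b z ≠ 0)
    (h1 : ∀ z, a z + a (z - 1) = F z) (h2 : ∀ z, F z + b (z - 2) = b z) : False := by
  have e0 : F 0 = a 0 + a 4 := (h1 0).symm
  have e1 : F 1 = a 1 + a 0 := (h1 1).symm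
  have e2 : F 2 = a 2 + a 1 := (h1 2).symm
  have e3 : F 3 = a 3 + a 2 := (h1 3).symm
  have e4 : F 4 = a 4 + a 3 := (h1 4).symm
  have k2 : b 2 = F 2 + b 0 := (h2 2).symm
  have k4 : b 4 = F 4 + b 2 := (h2 4).symm
  have k1 : b 1 = F 1 + b 4 := (h2 1).symm
  have k3 : b 3 = F 3 + b 1 := (h2 3).symm
  have k0 : F 0 + b 3 = b 0 := h2 0
  have n0 := hb 0
  have n2 := hb 2
  have n4 := hb 4
  have n1 := hb 1
  have n3 := hb 3
  have hF0 := hF 0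
  have hF1 := hF 1
  have hF2 := hF 2
  have hF3 := hF 3
  have hF4 := hF 4
  have q0 : b 0 ≠ 0 := hb 0
  rw [k3, k1, k4, k2] at n3
  rw [k1, k4, k2] at n1
  rw [k4, k2] at n4
  rw [k2] at n2
  rw [k3, k1, k4, k2] at k0
  rw [e0, e1, e2, e3, e4] at *
  exact petersen_aux (a 0) (a 1) (a 2) (a 3) (a 4) (b 0)
    ⟨ha 0, ha 1, ha 2, ha 3, ha 4, q0, hF0, hF1, hF2, hF3, hF4, n2, n4, n1, n3, k0⟩

end

end Pool.Agent.V11242.SC
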