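import Pool.Agent.V11242.SC.Pet

/-! The Petersen type cover has no 3-edge-colouring. -/

namespace Pool.Agent.V11242.SC

variable {V : Type}

section
set_option linter.unusedSectionVars false
variable [Fintype V] [DecidableEq V]
variable {A : CG V} {f0 g : V × Fin 3} {ρ : Equiv.Perm (Gm V)} {s1 : Gm V}

lemma dart_eq {T : Type} (x : V) (t t0 : T) (i : Fin 3) (d : V × Fin 3) :
    ((x, t), i) = ((d.1, t0), d.2) ↔ (x, i) = d ∧ t = t0 := by
  simp only [Prod.ext_iff]
  tauto

lemma vo_in (L : LD A f0 g) {d : V × Fin 3} (h : inA A f0 d.1) : vo A f0 d = 0 := by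
  unfold vo
  rw [if_pos (Or.inl h)]

lemma vo_in' (L : LD A f0 g) {d : V × Fin 3} (h : inA A f0 (A.lam d).1) : vo A f0 d = 0 := by
  unfold vo
  rw [if_pos (Or.inr h)]

lemma vo_out {d : V × Fin 3} (h : ¬ inA A f0 d.1) (h' : ¬ inA A f0 (A.lam d).1) :
    vo A f0 d = kk A d := by
  unfold vo
  rw [if_neg (fun h'' => h''.elim h h')]

lemma qq_g (t : Sp V) : qq A f0 g ρ s1 g t = GG ρ s1 t := by
  unfold qq; rw [if_pos rfl]

lemma qq_lg (L : LD A f0 g) (t : Sp V) : qq A f0 g ρ s1 (A.lam g) t = GI ρ s1 t := by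
  unfold qq; rw [if_neg (L.ns g), if_pos rfl]

lemma qq_o {d : V × Fin 3} (h : d ≠ g) (h' : d ≠ A.lam g) (t : Sp V) :
    qq A f0 g ρ s1 d t = (t.1 + vo A f0 d, t.2) := by
  unfold qq; rw [if_neg h, if_neg h']

lemma keyX (L : LD A f0 g) (hρ : ρ 0 = 0) (z : ZMod 5) (d : V × Fin 3) (hd : inA A f0 d.1) :
    (¬ (inA A f0 (A.lam d).1 ∧ qq A f0 g ρ s1 d (0, z) = (0, z))) ↔
      d = f0 ∨ d = g ∨ d = A.lam g := by
  have hρ' : ρ.symm 0 = 0 := by rw [Equiv.symm_apply_eq, hρ]
  constructor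
  · intro h
    by_contra hcon
    push Not at hcon
    obtain ⟨h1, h2, h3⟩ := hcon
    apply h
    refine ⟨L.closed hd h1, ?_⟩
    rw [qq_o h2 h3, vo_in L hd, add_zero]
  · rintro (rfl | rfl | rfl)
    · intro h
      exact L.not_v h.1
    · intro h
      have := h.2
      rw [qq_g] at this
      have h2 := (Prod.ext_iff.1 this).2
      simp [GG, ta] at h2
      exact absurd h2 (by decide)
    · intro h
      have := h.2
      rw [qq_lg L] at this
      have h2 := (Prod.ext_iff.1 this).2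
      simp [GI, ta, hρ'] at h2
      exact absurd h2 (by decide)

lemma keyY (L : LD A f0 g) (hρ : ρ 0 = 0) (hs1 : s1 ≠ 0) (z : ZMod 5) (d : V × Fin 3)
    (t : Sp V) :
    ((t.2 = z ∧ ¬ (inA A f0 d.1 ∧ t.1 = 0)) ∧
      ¬ ((qq A f0 g ρ s1 d t).2 = z ∧
        ¬ (inA A f0 (A.lam d).1 ∧ (qq A f0 g ρ s1 d t).1 = 0))) ↔
    (d = A.lam f0 ∧ t = (0, z)) ∨ (d = g ∧ t = (s1, z)) ∨ (d = A.lam g ∧ t = (ρ s1, z)) := by
  have hρ' : ρ.symm 0 = 0 := by rw [Equiv.symm_apply_eq, hρ]
  have hρne : ∀ s, s ≠ 0 → ρ s ≠ 0 := fun s hs h => hs (ρ.injective (by rw [h, hρ]))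
  have hρne' : ∀ s, s ≠ 0 → ρ.symm s ≠ 0 := fun s hs h => hs (ρ.symm.injective (by rw [h, hρ']))
  have hgf : g ≠ A.lam f0 := by
    intro h
    have : (A.lam f0).1 = f0.1 := by rw [← h]; exact L.hg1
    exact L.not_v (by rw [this]; exact L.in_u)
  have hlgf : A.lam g ≠ A.lam f0 := fun h => L.hg (by rw [← A.inv g, h, A.inv])
  have h20 : (2 : ZMod 5) ≠ 0 := by decide
  obtain ⟨s, z'⟩ := t
  by_cases h1 : d = g
  · subst h1
    rw [qq_g]
    constructor
    · rintro ⟨⟨h2, h3⟩, h4⟩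
      right; left
      refine ⟨rfl, ?_⟩
      simp only at h2 h3
      subst h2
      have hs0 : s ≠ 0 := fun h => h3 ⟨L.in_g, h⟩
      by_contra hne
      apply h4
      have hss : s ≠ s1 := fun h => hne (by rw [h])
      refine ⟨?_, fun h => hρne s hs0 h.2⟩
      simp [GG, ta, hs0, hss]
    · rintro (h | h | h)
      · exact absurd h.1 hgf
      · obtain ⟨_, h2⟩ := h
        have e1 : s = s1 := (Prod.ext_iff.1 h2).1
        have e2 : z' = z := (Prod.ext_iff.1 h2).2
        subst e1 e2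
        refine ⟨⟨rfl, fun h => hs1 h.2⟩, fun h => ?_⟩
        have := h.1
        simp [GG, ta, hs1] at this
        exact h20 this
      · exact absurd h.1.symm (L.ns d)
  · by_cases h2 : d = A.lam g
    · subst h2
      rw [qq_lg L]
      constructor
      · rintro ⟨⟨h2, h3⟩, h4⟩
        right; right
        refine ⟨rfl, ?_⟩
        simp only at h2 h3
        subst h2
        have hs0 : s ≠ 0 := fun h => h3 ⟨L.in_lg, h⟩
        by_contra hne
        apply h4
        have hss : ρ.symm s ≠ s1 := fun h => hne (by rw [← h, Equiv.apply_symm_apply])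
        refine ⟨?_, fun h => hρne' s hs0 h.2⟩
        simp [GI, ta, hρne' s hs0, hss]
      · rintro (h | h | h)
        · exact absurd h.1 hlgf
        · exact absurd h.1 h1
        · obtain ⟨_, h2⟩ := h
          have e1 : s = ρ s1 := (Prod.ext_iff.1 h2).1
          have e2 : z' = z := (Prod.ext_iff.1 h2).2
          subst e1 e2
          refine ⟨⟨rfl, fun h => hρne s1 hs1 h.2⟩, fun h => ?_⟩
          have := h.1
          simp [GI, ta, hs1] at this
          exact h20 this
    · rw [qq_o h1 h2]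
      constructor
      · rintro ⟨⟨h3, h4⟩, h5⟩
        simp only at h3 h4 h5
        subst h3
        have h6 : inA A f0 (A.lam d).1 ∧ s + vo A f0 d = 0 := by
          by_contra h7
          exact h5 ⟨rfl, h7⟩
        rw [vo_in' L h6.1, add_zero] at h6
        have h8 : ¬ inA A f0 d.1 := fun h => h4 ⟨h, h6.2⟩
        left
        refine ⟨?_, by rw [h6.2]⟩
        have h9 : A.lam d = f0 := L.out h6.1 (by rw [A.inv]; exact h8)
        rw [← h9, A.inv]
      · rintro (h | h | h)
        · obtain ⟨rfl, ht⟩ := h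
          have e1 : s = 0 := (Prod.ext_iff.1 ht).1
          have e2 : z' = z := (Prod.ext_iff.1 ht).2
          subst e1 e2
          refine ⟨⟨rfl, fun h => L.not_v h.1⟩, fun h => ?_⟩
          apply h.2
          have h3 : inA A f0 (A.lam (A.lam f0)).1 := by rw [A.inv]; exact L.in_u
          refine ⟨h3, ?_⟩
          rw [vo_in' L h3]
          simp
        · exact absurd h.1 h1
        · exact absurd h.1 h2

lemma PC_ncol (L : LD A f0 g) (hρ : ρ 0 = 0) (hs1 : s1 ≠ 0) :
    ¬ (PC A L.ns f0 g ρ s1).Col4 := by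
  classical
  rintro ⟨c, h1, h2, h3⟩
  set C := PC A L.ns f0 g ρ s1 with hC
  have hcov : Cov A C Prod.fst := lift_cov A _ _
  have hlam : ∀ v t i, C.lam ((v, t), i) =
    (((A.lam (v, i)).1, qq A f0 g ρ s1 (v, i) t), (A.lam (v, i)).2) := fun v s i => rfl
  have hns := hcov.ns L.ns
  have hgf : g ≠ A.lam f0 := by
    intro h
    have : (A.lam f0).1 = f0.1 := by rw [← h]; exact L.hg1
    exact L.not_v (by rw [this]; exact L.in_u)
  have hlgf : A.lam g ≠ A.lam f0 := fun h => L.hg (by rw [← A.inv g, h, A.inv])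
  have hX : ∀ z, c ((f0.1, ((0 : Gm V), z)), f0.2) + (c ((g.1, ((0 : Gm V), z)), g.2) +
      c (((A.lam g).1, ((0 : Gm V), z)), (A.lam g).2)) = 0 := by
    intro z
    have hcut := cut C hns c h1 h3 (fun w => inA A f0 w.1 ∧ w.2 = ((0 : Gm V), z))
    have hset : (Finset.univ.filter
        (fun e : (V × Sp V) × Fin 3 => (inA A f0 e.1.1 ∧ e.1.2 = ((0 : Gm V), z)) ∧
          ¬ (inA A f0 (C.lam e).1.1 ∧ (C.lam e).1.2 = ((0 : Gm V), z)))) =
        {((f0.1, ((0 : Gm V), z)), f0.2), ((g.1, ((0 : Gm V), z)), g.2),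
          (((A.lam g).1, ((0 : Gm V), z)), (A.lam g).2)} := by
      ext ⟨⟨v, t⟩, i⟩
      simp only [Finset.mem_filter, Finset.mem_univ, true_and, Finset.mem_insert,
        Finset.mem_singleton, hlam, dart_eq]
      constructor
      · rintro ⟨⟨ha, rfl⟩, hb⟩
        have := (keyX L hρ z (v, i) ha).1 hb
        tauto
      · intro h
        have ht : t = ((0 : Gm V), z) := by tauto
        have hd : (v, i) = f0 ∨ (v, i) = g ∨ (v, i) = A.lam g := by tauto
        subst ht
        have ha : inA A f0 (v, i).1 := by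
          rcases hd with hd | hd | hd
          · rw [hd]; exact L.in_u
          · rw [hd]; exact L.in_g
          · rw [hd]; exact L.in_lg
        exact ⟨⟨ha, rfl⟩, (keyX L hρ z (v, i) ha).2 hd⟩
    rw [hset, Finset.sum_insert, Finset.sum_pair] at hcut
    · exact hcut
    · rw [Ne, dart_eq]
      rintro ⟨h, _⟩
      exact L.ns g h.symm
    · rw [Finset.mem_insert, Finset.mem_singleton, dart_eq, dart_eq]
      rintro (⟨h, _⟩ | ⟨h, _⟩)
      · exact L.hg h.symm
      · exact L.lg_ne h.symm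
  have hY : ∀ z, c (((A.lam f0).1, ((0 : Gm V), z)), (A.lam f0).2) + (c ((g.1, (s1, z)), g.2) +
      c (((A.lam g).1, (ρ s1, z)), (A.lam g).2)) = 0 := by
    intro z
    have hcut := cut C hns c h1 h3 (fun w => w.2.2 = z ∧ ¬ (inA A f0 w.1 ∧ w.2.1 = 0))
    have hset : (Finset.univ.filter
        (fun e : (V × Sp V) × Fin 3 => (e.1.2.2 = z ∧ ¬ (inA A f0 e.1.1 ∧ e.1.2.1 = 0)) ∧
          ¬ ((C.lam e).1.2.2 = z ∧ ¬ (inA A f0 (C.lam e).1.1 ∧ (C.lam e).1.2.1 = 0)))) =
        {(((A.lam f0).1, ((0 : Gm V), z)), (A.lam f0).2), ((g.1, (s1, z)), g.2),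
          (((A.lam g).1, (ρ s1, z)), (A.lam g).2)} := by
      ext ⟨⟨v, t⟩, i⟩
      simp only [Finset.mem_filter, Finset.mem_univ, true_and, Finset.mem_insert,
        Finset.mem_singleton, hlam, dart_eq]
      exact keyY L hρ hs1 z (v, i) t
    rw [hset, Finset.sum_insert, Finset.sum_pair] at hcut
    · exact hcut
    · rw [Ne, dart_eq]
      rintro ⟨h, _⟩
      exact L.ns g h.symm
    · rw [Finset.mem_insert, Finset.mem_singleton, dart_eq, dart_eq]
      rintro (⟨h, _⟩ | ⟨h, _⟩)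
      · exact hgf h.symm
      · exact hlgf h.symm
  have hf : ∀ z, c (((A.lam f0).1, ((0 : Gm V), z)), (A.lam f0).2) =
      c ((f0.1, ((0 : Gm V), z)), f0.2) := by
    intro z
    have h := h1 ((f0.1, ((0 : Gm V), z)), f0.2)
    rw [hlam, Prod.mk.eta, qq_o L.hg.symm L.lg_ne.symm, vo_in L L.in_u] at h
    simpa using h
  have hg : ∀ s z, c (((A.lam g).1, (ρ s, z + ta s1 s)), (A.lam g).2) =
      c ((g.1, (s, z)), g.2) := by
    intro s z
    have h := h1 ((g.1, (s, z)), g.2)
    rw [hlam, Prod.mk.eta, qq_g] at h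
    exact h
  have hga : ∀ z, c (((A.lam g).1, ((0 : Gm V), z)), (A.lam g).2) =
      c ((g.1, ((0 : Gm V), z - 1)), g.2) := by
    intro z
    have h := hg 0 (z - 1)
    rw [hρ] at h
    have e : z - 1 + ta s1 0 = z := by simp [ta]
    rw [e] at h
    exact h
  have hgb : ∀ z, c (((A.lam g).1, (ρ s1, z)), (A.lam g).2) =
      c ((g.1, (s1, z - 2)), g.2) := by
    intro z
    have h := hg s1 (z - 2)
    have e : z - 2 + ta s1 s1 = z := by simp [ta, hs1]
    rw [e] at h
    exact h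
  have dbl : ∀ x y : K4, x + y = 0 → x = y := by
    intro x y h
    have := add_self_K4 y
    exact add_right_cancel (h.trans this.symm)
  apply petersen (fun z => c ((f0.1, ((0 : Gm V), z)), f0.2))
    (fun z => c ((g.1, ((0 : Gm V), z)), g.2)) (fun z => c ((g.1, (s1, z)), g.2))
    (fun z => h2 _) (fun z => h2 _) (fun z => h2 _)
  · intro z
    have := hX z
    rw [hga] at this
    exact (dbl _ _ this).symm
  · intro z
    have := hY z
    rw [hgb, hf] at this
    have h5 := dbl _ _ this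
    show c ((f0.1, ((0 : Gm V), z)), f0.2) + c ((g.1, (s1, z - 2)), g.2) = c ((g.1, (s1, z)), g.2)
    rw [h5, add_assoc, add_self_K4, add_zero]

end

end Pool.Agent.V11242.SC
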