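import Pool.Agent.V11242.SC.Pet2

/-! The Petersen type cover has no bridge. -/

namespace Pool.Agent.V11242.SC

variable {V : Type}

section
set_option linter.unusedSectionVars false
variable [Fintype V] [DecidableEq V]
variable {A : CG V} {f0 g : V × Fin 3} {ρ : Equiv.Perm (Gm V)} {s1 : Gm V}

lemma gm_two {x : Gm V} (h : x + x = 0) : x = 0 := by
  funext i
  have h1 := congrFun h i
  simp only [Pi.add_apply, Pi.zero_apply] at h1
  have : ∀ a : ZMod 3, a + a = 0 → a = 0 := by decide
  exact this _ h1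

lemma kk_off (A : CG V) {d h : V × Fin 3} (hd : d ∉ A.E h) : kk A d h = 0 := by
  unfold kk
  have h1 : h ≠ d := fun hh => hd (Or.inl hh.symm)
  have h2 : h ≠ A.lam d := fun hh => hd (Or.inr (by rw [hh, A.inv]))
  rw [Pi.sub_apply, Pi.single_eq_of_ne h1, Pi.single_eq_of_ne h2, sub_zero]

lemma PC_nb_main (L : LD A f0 g) (hρ : ρ 0 = 0) (hs1 : s1 ≠ 0)
    (hcyc : ∀ s, s ≠ 0 → ∃ k : ℕ, (ρ ^ k) (ρ s1) = s) (e : V × Fin 3) (he : ¬ A.NB e)
    (hu : A.R (A.E e) e.1 f0.1) (t0 : Sp V) :
    (PC A L.ns f0 g ρ s1).NB ((e.1, t0), e.2) := by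
  set C := PC A L.ns f0 g ρ s1 with hC
  have hlam : ∀ v t i, C.lam ((v, t), i) =
    (((A.lam (v, i)).1, qq A f0 g ρ s1 (v, i) t), (A.lam (v, i)).2) := fun v s i => rfl
  set E' := C.E ((e.1, t0), e.2) with hE'
  have hE : ∀ x t i, ((x, t), i) ∈ E' → (x, i) ∈ A.E e := by
    rintro x t i (h | h)
    · left
      exact ((dart_eq _ _ _ _ _).1 h).1
    · right
      rw [hlam] at h
      exact ((dart_eq x t _ i (A.lam e)).1 h).1
  have hsym : ∀ a b, C.R E' a b → C.R E' b a := fun a b h => C.R_symm (C.Cl_E _) h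
  have step : ∀ d, d ∉ A.E e → ∀ t, C.R E' (d.1, t) ((A.lam d).1, qq A f0 g ρ s1 d t) := by
    intro d hd t
    exact C.R_step (x := (d.1, t)) (i := d.2) (fun h => hd (hE _ _ _ h))
  have hNBne : ∀ d, A.NB d → d ∉ A.E e := by
    rintro d hd (h | h)
    · exact he (h ▸ hd)
    · apply he
      have := A.NB_lam hd
      rw [h, A.inv] at this
      exact this
  have hgE : g ∉ A.E e := hNBne g L.nbg
  have hAu : ∀ w, inA A f0 w → A.R (A.E e) f0.1 w := by
    intro w hw
    induction hw with
    | refl => exact A.R_refl _ _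
    | @tail x y h1 h2 ih =>
      obtain ⟨i, hi, rfl⟩ := h2
      exact A.R_trans ih (A.R_step (hNBne _ (L.leaf (x, i) h1 (fun h => hi (Or.inl h)))))
  have hq : ∀ w, A.R (A.E e) (A.lam e).1 w → ¬ inA A f0 w := by
    intro w hw hin
    exact he (A.R_trans (A.R_trans hu (hAu w hin)) (A.R_symm (A.Cl_E e) hw))
  have path0 : ∀ x y, A.R (A.E f0 ∪ A.E g) x y → inA A f0 x →
      inA A f0 y ∧ ∀ t, C.R E' (x, t) (y, t) := by
    intro x y h hx
    induction h with
    | refl => exact ⟨hx, fun t => C.R_refl _ _⟩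
    | @tail y z h1 h2 ih =>
      obtain ⟨i, hi, rfl⟩ := h2
      have hne : (y, i) ≠ f0 := fun h => hi (Or.inl (Or.inl h))
      refine ⟨L.closed (d := (y, i)) ih.1 hne, fun t => C.R_trans (ih.2 t) ?_⟩
      have h3 := step (y, i) (hNBne _ (L.leaf (y, i) ih.1 hne)) t
      rw [qq_o (fun h => hi (Or.inr (Or.inl h))) (fun h => hi (Or.inr (Or.inr h))),
        vo_in L (d := (y, i)) ih.1, add_zero] at h3
      exact h3
  have L1 : ∀ t, C.R E' (f0.1, t) (f0.1, GG ρ s1 t) := by
    intro t
    have h1 := step g hgE t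
    rw [qq_g, L.hg1] at h1
    exact C.R_trans h1 ((path0 _ _ L.pathg L.in_lg).2 _)
  have hρne : ∀ s, s ≠ 0 → ρ s ≠ 0 := fun s hs h => hs (ρ.injective (by rw [h, hρ]))
  have hρk : ∀ k : ℕ, ∀ s, s ≠ 0 → (ρ ^ k) s ≠ 0 := by
    intro k
    induction k with
    | zero => intro s hs; simpa using hs
    | succ k ih =>
      intro s hs
      rw [pow_succ', Equiv.Perm.mul_apply]
      exact hρne _ (ih s hs)
  have L2a : ∀ z (n : ℕ), C.R E' (f0.1, ((0 : Gm V), z)) (f0.1, ((0 : Gm V), z + n)) := by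
    intro z n
    induction n with
    | zero => simpa using C.R_refl _ _
    | succ n ih =>
      have h1 := L1 ((0 : Gm V), z + n)
      have h2 : GG ρ s1 ((0 : Gm V), z + n) = ((0 : Gm V), z + (n + 1 : ℕ)) := by
        simp [GG, ta, hρ]
        ring
      rw [h2] at h1
      exact C.R_trans ih h1
  have L2b' : ∀ (k : ℕ) z, C.R E' (f0.1, ((ρ ^ k) (ρ s1), z)) (f0.1, (ρ s1, z)) := by
    intro k
    induction k with
    | zero => intro z; simpa using C.R_refl _ _
    | succ k ih =>
      intro z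
      rw [pow_succ', Equiv.Perm.mul_apply]
      by_cases hx : (ρ ^ k) (ρ s1) = s1
      · rw [hx]; exact C.R_refl _ _
      · have hx0 := hρk k (ρ s1) (hρne s1 hs1)
        have h1 := L1 ((ρ ^ k) (ρ s1), z)
        have h2 : GG ρ s1 ((ρ ^ k) (ρ s1), z) = (ρ ((ρ ^ k) (ρ s1)), z) := by
          simp only [GG, ta, if_neg hx0, if_neg hx, add_zero]
        rw [h2] at h1
        exact C.R_trans (hsym _ _ h1) (ih z)
  have L2b : ∀ s, s ≠ 0 → ∀ z, C.R E' (f0.1, (s, z)) (f0.1, (ρ s1, z)) := by
    intro s hs z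
    obtain ⟨k, rfl⟩ := hcyc s hs
    exact L2b' k z
  have L2c : ∀ z (n : ℕ), C.R E' (f0.1, (ρ s1, z)) (f0.1, (ρ s1, z + 2 * n)) := by
    intro z n
    induction n with
    | zero => simpa using C.R_refl _ _
    | succ n ih =>
      have h1 := L1 (s1, z + 2 * n)
      have h2 : GG ρ s1 (s1, z + 2 * n) = (ρ s1, z + 2 * (n + 1 : ℕ)) := by
        simp only [GG, ta, if_neg hs1, if_true]
        push_cast
        congr 1
        ring
      rw [h2] at h1
      exact C.R_trans ih (C.R_trans (hsym _ _ (L2b s1 hs1 _)) h1)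
  have L2 : ∀ s s', s ≠ 0 → s' ≠ 0 → ∀ z z', C.R E' (f0.1, (s, z)) (f0.1, (s', z')) := by
    intro s s' hs hs' z z'
    have h1 := L2c z (3 * (z' - z)).val
    have h2 : z + 2 * ((3 * (z' - z)).val : ZMod 5) = z' := by
      rw [ZMod.natCast_zmod_val]
      have h6 : (5 : ZMod 5) = 0 := by decide
      linear_combination (z' - z) * h6
    rw [h2] at h1
    exact C.R_trans (L2b s hs z) (C.R_trans h1 (hsym _ _ (L2b s' hs' z')))
  have L20 : ∀ z z', C.R E' (f0.1, ((0 : Gm V), z)) (f0.1, ((0 : Gm V), z')) := by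
    intro z z'
    have h1 := L2a z (z' - z).val
    have h2 : z + ((z' - z).val : ZMod 5) = z' := by
      rw [ZMod.natCast_zmod_val]; ring
    rw [h2] at h1
    exact h1
  -- translation walks
  have stepV : ∀ d, d ∉ A.E e → d ≠ g → d ≠ A.lam g → ∀ s z,
      C.R E' (d.1, (s, z)) ((A.lam d).1, (s + vo A f0 d, z)) := by
    intro d h1 h2 h3 s z
    have := step d h1 (s, z)
    rw [qq_o h2 h3] at this
    exact this
  have notg : ∀ d : V × Fin 3, ¬ inA A f0 d.1 → d ≠ g ∧ d ≠ A.lam g := by
    intro d hd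
    constructor
    · rintro rfl
      exact hd L.in_g
    · rintro rfl
      exact hd L.in_lg
  have L3 : ∃ r : Gm V, ∀ s z, C.R E' (e.1, (s, z)) (f0.1, (s + r, z)) := by
    have key : ∀ w, A.R (A.E e) e.1 w →
        (¬ inA A f0 w ∧ ∃ r : Gm V, ∀ s z, C.R E' (e.1, (s, z)) (w, (s + r, z))) ∨
        (∃ r : Gm V, ∀ s z, C.R E' (e.1, (s, z)) (f0.1, (s + r, z))) := by
      intro w hw
      induction hw with
      | refl =>
        by_cases hin : inA A f0 e.1
        · right
          have hef : e = f0 := by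
            by_contra hne
            exact he (L.leaf e hin hne)
          refine ⟨0, fun s z => ?_⟩
          rw [add_zero, hef]
          exact C.R_refl _ _
        · left
          refine ⟨hin, 0, fun s z => ?_⟩
          rw [add_zero]
          exact C.R_refl _ _
      | @tail x y h1 h2 ih =>
        obtain ⟨i, hi, rfl⟩ := h2
        rcases ih with ⟨hx, r, hr⟩ | ih
        · have hng := notg (x, i) hx
          have hst := stepV (x, i) hi hng.1 hng.2
          have hnew : ∀ s z, C.R E' (e.1, (s, z))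
              ((A.lam (x, i)).1, (s + (r + vo A f0 (x, i)), z)) := by
            intro s z
            have := C.R_trans (hr s z) (hst (s + r) z)
            rw [add_assoc] at this
            exact this
          by_cases hy : inA A f0 (A.lam (x, i)).1
          · right
            have h3 : A.lam (x, i) = f0 := L.out hy (by rw [A.inv]; exact hx)
            refine ⟨r + vo A f0 (x, i), fun s z => ?_⟩
            have := hnew s z
            rw [h3] at this
            exact this
          · exact Or.inl ⟨hy, _, hnew⟩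
        · exact Or.inr ih
    rcases key f0.1 hu with h | h
    · exact absurd L.in_u h.1
    · exact h
  have L4a : ∀ w, A.R (A.E e) (A.lam e).1 w →
      ∃ r : Gm V, ∀ s z, C.R E' ((A.lam e).1, (s, z)) (w, (s + r, z)) := by
    intro w hw
    induction hw with
    | refl => exact ⟨0, fun s z => by rw [add_zero]; exact C.R_refl _ _⟩
    | @tail x y h1 h2 ih =>
      obtain ⟨i, hi, rfl⟩ := h2
      obtain ⟨r, hr⟩ := ih
      have hng := notg (x, i) (hq x h1)
      refine ⟨r + vo A f0 (x, i), fun s z => ?_⟩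
      have := C.R_trans (hr s z) (stepV (x, i) hi hng.1 hng.2 (s + r) z)
      rw [add_assoc] at this
      exact this
  have L4 : ∃ y : Gm V, y ≠ 0 ∧ ∀ s z,
      C.R E' ((A.lam e).1, (s, z)) ((A.lam e).1, (s + y, z)) := by
    obtain ⟨h, hh1, hh2⟩ := exists_nb A _ e le_rfl he
    obtain ⟨r1, hr1⟩ := L4a _ hh2
    have hhE : h ∉ A.E e := hNBne h hh1
    have hh3 : A.R (A.E e) (A.lam e).1 (A.lam h).1 :=
      A.R_trans hh2 (A.R_step (i := h.2) hhE)
    have hin1 := hq _ hh2
    have hin2 := hq _ hh3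
    have hng := notg h hin1
    have hpath := avoid2 A e h he (A.lam h).1 h.1 hh3 hh2 (A.R_symm (A.Cl_E h) hh1)
    have L4b : ∀ y, A.R (A.E e ∪ A.E h) (A.lam h).1 y → A.R (A.E e) (A.lam e).1 y ∧
        ∃ r : Gm V, r h = 0 ∧ ∀ s z, C.R E' ((A.lam h).1, (s, z)) (y, (s + r, z)) := by
      intro y hy
      induction hy with
      | refl => exact ⟨hh3, 0, rfl, fun s z => by rw [add_zero]; exact C.R_refl _ _⟩
      | @tail x y h1 h2 ih =>
        obtain ⟨i, hi, rfl⟩ := h2
        obtain ⟨hx, r, hr0, hr⟩ := ih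
        have hxe : (x, i) ∉ A.E e := fun h => hi (Or.inl h)
        have hxh : (x, i) ∉ A.E h := fun h => hi (Or.inr h)
        have hy' := A.R_trans hx (A.R_step hxe)
        have hng := notg (x, i) (hq x hx)
        refine ⟨hy', r + vo A f0 (x, i), ?_, fun s z => ?_⟩
        · rw [Pi.add_apply, hr0, zero_add, vo_out (d := (x, i)) (hq x hx) (hq _ hy')]
          exact kk_off A hxh
        · have := C.R_trans (hr s z) (stepV (x, i) hxe hng.1 hng.2 (s + r) z)
          rw [add_assoc] at this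
          exact this
    obtain ⟨_, r2, hr20, hr2⟩ := L4b _ hpath
    refine ⟨r1 + kk A h + r2 - r1, ?_, fun s z => ?_⟩
    · intro h0
      have := congrFun h0 h
      simp only [Pi.sub_apply, Pi.add_apply, Pi.zero_apply, hr20, kk_self A L.ns] at this
      have h1 : (1 : ZMod 3) = 0 := by linear_combination this
      exact absurd h1 (by decide)
    · have a1 := hr1 s z
      have a2 := stepV h hhE hng.1 hng.2 (s + r1) z
      rw [vo_out hin1 hin2] at a2
      have a3 := hr2 (s + r1 + kk A h) z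
      have a4 := hsym _ _ (hr1 (s + (r1 + kk A h + r2 - r1)) z)
      have e1 : s + (r1 + kk A h + r2 - r1) + r1 = s + r1 + kk A h + r2 := by abel
      rw [e1] at a4
      exact C.R_trans a1 (C.R_trans a2 (C.R_trans a3 a4))
  obtain ⟨r, hr⟩ := L3
  obtain ⟨y, hy0, hy⟩ := L4
  -- the edge of `e` itself
  have heg : e ≠ g := fun h => he (h ▸ L.nbg)
  have helg : e ≠ A.lam g := fun h => he (h ▸ A.NB_lam L.nbg)
  have edge : ∀ t, t ≠ t0 → C.R E' (e.1, t) ((A.lam e).1, (t.1 + vo A f0 e, t.2)) := by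
    intro t ht
    have h1 : ((e.1, t), e.2) ∉ E' := by
      rintro (h | h)
      · exact ht ((dart_eq _ _ _ _ _).1 h).2
      · rw [hlam] at h
        exact L.ns e (((dart_eq e.1 t _ e.2 (A.lam e)).1 h).1).symm
    have h2 := C.R_step h1
    have h3 : (C.lam ((e.1, t), e.2)).1 = ((A.lam e).1, (t.1 + vo A f0 e, t.2)) := by
      rw [hlam, Prod.mk.eta, qq_o heg helg]
    rw [h3] at h2
    exact h2
  have Prel : ∀ s s' : Gm V, s + r ≠ 0 → s' + r ≠ 0 → ∀ z z',
      C.R E' (e.1, (s, z)) (e.1, (s', z')) := by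
    intro s s' h1 h2 z z'
    exact C.R_trans (hr s z) (C.R_trans (L2 _ _ h1 h2 z z') (hsym _ _ (hr s' z')))
  have Prel0 : ∀ s : Gm V, s + r = 0 → ∀ z z', C.R E' (e.1, (s, z)) (e.1, (s, z')) := by
    intro s h1 z z'
    have h2 := hr s z
    have h3 := hr s z'
    rw [h1] at h2 h3
    exact C.R_trans h2 (C.R_trans (L20 z z') (hsym _ _ h3))
  obtain ⟨s0, z0⟩ := t0
  have goal : C.R E' (e.1, (s0, z0)) ((A.lam e).1, (s0 + vo A f0 e, z0)) := by
    by_cases h0 : s0 + r = 0
    · have a1 := Prel0 s0 h0 z0 (z0 + 1)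
      have hz : z0 + 1 ≠ z0 := by
        intro h
        have : (1 : ZMod 5) = 0 := by linear_combination h
        exact absurd this (by decide)
      have a2 := edge (s0, z0 + 1) (fun h => hz (Prod.ext_iff.1 h).2)
      have a3 := hy (s0 + vo A f0 e) (z0 + 1)
      have a4 := hsym _ _ (edge (s0 + y, z0 + 1) (fun h => hz (Prod.ext_iff.1 h).2))
      have hsy : s0 + y + r ≠ 0 := by
        intro h
        apply hy0
        have : y = (s0 + y + r) - (s0 + r) := by abel
        rw [this, h, h0, sub_zero]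
      have a5 := Prel (s0 + y) (s0 + y) hsy hsy (z0 + 1) z0
      have a6 := edge (s0 + y, z0) (fun h => hy0 (by
        have := (Prod.ext_iff.1 h).1
        simpa using this))
      have a7 := hsym _ _ (hy (s0 + vo A f0 e) z0)
      have e1 : s0 + y + vo A f0 e = s0 + vo A f0 e + y := by abel
      simp only at a2 a4 a6
      rw [e1] at a4 a6
      exact C.R_trans a1 (C.R_trans a2 (C.R_trans a3 (C.R_trans a4 (C.R_trans a5
        (C.R_trans a6 a7)))))
    · obtain ⟨y', hy'0, hy'1, hy'⟩ : ∃ y' : Gm V, y' ≠ 0 ∧ s0 + y' + r ≠ 0 ∧ ∀ s z,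
          C.R E' ((A.lam e).1, (s + y', z)) ((A.lam e).1, (s, z)) := by
        by_cases h1 : s0 + y + r = 0
        · refine ⟨-y, neg_ne_zero.2 hy0, ?_, fun s z => ?_⟩
          · intro h2
            apply h0
            apply gm_two
            have : (s0 + r) + (s0 + r) = (s0 + y + r) + (s0 + -y + r) := by abel
            rw [this, h1, h2, add_zero]
          · have := hy (s + -y) z
            rw [neg_add_cancel_right] at this
            exact this
        · exact ⟨y, hy0, h1, fun s z => hsym _ _ (hy s z)⟩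
      have a1 := Prel s0 (s0 + y') h0 hy'1 z0 z0
      have a2 := edge (s0 + y', z0) (fun h => hy'0 (by
        have := (Prod.ext_iff.1 h).1
        simpa using this))
      have a3 := hy' (s0 + vo A f0 e) z0
      have e1 : s0 + y' + vo A f0 e = s0 + vo A f0 e + y' := by abel
      simp only at a2
      rw [e1] at a2
      exact C.R_trans a1 (C.R_trans a2 a3)
  show C.R E' (e.1, (s0, z0)) (C.lam ((e.1, (s0, z0)), e.2)).1
  have h3 : (C.lam ((e.1, (s0, z0)), e.2)).1 = ((A.lam e).1, (s0 + vo A f0 e, z0)) := by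
    rw [hlam, Prod.mk.eta, qq_o heg helg]
  rw [h3]
  exact goal

end

end Pool.Agent.V11242.SC
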