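import Pool.Agent.V11242.SC.Basic

/-! Every cubic graph without 3-edge-colouring and without semi-edges has a simple cover without
3-edge-colouring. -/

namespace Pool.Agent.V11242.SC

variable {V W : Type}

section
set_option linter.unusedSectionVars false
variable [Fintype V] [DecidableEq V]

/-- generic voltage of an edge-end -/
def kk (A : CG V) (d : V × Fin 3) : V × Fin 3 → ZMod 3 :=
  Pi.single d 1 - Pi.single (A.lam d) 1

lemma kk_lam (A : CG V) (d : V × Fin 3) : kk A (A.lam d) = - kk A d := by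
  unfold kk
  rw [A.inv]
  abel

lemma kk_self (A : CG V) (hs : A.NS) (d : V × Fin 3) : kk A d d = 1 := by
  unfold kk
  rw [Pi.sub_apply, Pi.single_eq_same, Pi.single_eq_of_ne (hs d).symm, sub_zero]

lemma kk_eq_one (A : CG V) (hs : A.NS) {d e : V × Fin 3} (h : kk A d e = 1) : e = d := by
  by_contra hne
  unfold kk at h
  rw [Pi.sub_apply, Pi.single_eq_of_ne hne, zero_sub] at h
  by_cases h2 : e = A.lam d
  · rw [h2, Pi.single_eq_same] at h
    exact absurd h (by decide)
  · rw [Pi.single_eq_of_ne h2] at h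
    exact absurd h (by decide)

lemma kk_inj (A : CG V) (hs : A.NS) {d e : V × Fin 3} (h : kk A d = kk A e) : d = e := by
  have := kk_self A hs d
  rw [h] at this
  exact kk_eq_one A hs this

lemma kk_ne (A : CG V) (hs : A.NS) (d : V × Fin 3) : kk A d ≠ 0 := by
  intro h
  have := kk_self A hs d
  rw [h] at this
  simp at this

abbrev Sh (V : Type) := Option ((V × Fin 3) × (V × Fin 3 → ZMod 3))

/-- the permutation voltages -/
def pp (A : CG V) (d : V × Fin 3) : Sh V → Sh V
  | none => some (d, 0)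
  | some (a, x) =>
    if a = d then (if x = - kk A d then some (A.lam d, kk A d) else some (d, x + kk A d))
    else if a = A.lam d then (if x = 0 then none else some (A.lam d, x + kk A d))
    else some (a, x + kk A d)

lemma pp_inv (A : CG V) (hs : A.NS) (d : V × Fin 3) (s : Sh V) :
    pp A (A.lam d) (pp A d s) = s := by
  have hd : A.lam d ≠ d := hs d
  rcases s with _ | ⟨a, x⟩
  · simp [pp, A.inv, hd.symm]
  · by_cases h1 : a = d
    · subst h1
      by_cases h2 : x = - kk A a
      · subst h2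
        simp [pp, A.inv, kk_lam]
      · have h3 : x + kk A a ≠ 0 := fun h => h2 (eq_neg_of_add_eq_zero_left h)
        simp [pp, A.inv, kk_lam, h2, h3, hd.symm]
    · by_cases h2 : a = A.lam d
      · subst h2
        by_cases h3 : x = 0
        · subst h3
          simp [pp, A.inv, hd]
        · have h4 : x + kk A d ≠ kk A d := fun h => h3 (by simpa using h)
          simp [pp, A.inv, kk_lam, h3, hd]
      · simp [pp, A.inv, kk_lam, h1, h2]

/-- simple graph condition -/
def CG.Simp (A : CG W) : Prop :=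
  (∀ w i, (A.lam (w, i)).1 ≠ w) ∧ ∀ w i j, (A.lam (w, i)).1 = (A.lam (w, j)).1 → i = j

lemma pp_ne (A : CG V) (hs : A.NS) (d : V × Fin 3) (s : Sh V) : pp A d s ≠ s := by
  have hd : A.lam d ≠ d := hs d
  have hk := kk_ne A hs d
  rcases s with _ | ⟨a, x⟩
  · simp [pp]
  · by_cases h1 : a = d
    · subst h1
      by_cases h2 : x = - kk A a
      · simp [pp, h2, hd]
      · simp [pp, h2, hk]
    · by_cases h2 : a = A.lam d
      · subst h2
        by_cases h3 : x = 0
        · simp [pp, h3, hd]
        · simp [pp, h3, hd, hk]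
      · simp [pp, h1, h2, hk]

lemma pp_inj (A : CG V) (hs : A.NS) (d e : V × Fin 3) (s : Sh V) (h : pp A d s = pp A e s) :
    d = e := by
  by_contra hne
  have hd : A.lam d ≠ d := hs d
  have he : A.lam e ≠ e := hs e
  have hk : kk A d ≠ kk A e := fun h => hne (kk_inj A hs h)
  have hl : A.lam d ≠ A.lam e := fun h => hne (by rw [← A.inv d, h, A.inv])
  rcases s with _ | ⟨a, x⟩
  · simp [pp] at h
    exact hne h
  · unfold pp at h
    simp only at h
    have hadd : ∀ x : V × Fin 3 → ZMod 3, x + kk A d ≠ x + kk A e := fun x h => hk (add_left_cancel h)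
    have hx := hadd x
    split_ifs at h <;> grind

def inn (A : CG V) (d : V × Fin 3) (s : Sh V) : Prop := ∃ x, s = some (d, x) ∨ s = some (A.lam d, x)

lemma inn_iff (A : CG V) (hs : A.NS) (d e : V × Fin 3) (s : Sh V) :
    (inn A d s ∧ ¬ inn A d (pp A e s)) ↔
      ((e = d ∧ s = some (A.lam d, 0)) ∨ (e = A.lam d ∧ s = some (d, 0))) := by
  have hd : A.lam d ≠ d := hs d
  have he : A.lam e ≠ e := hs e
  have hdd : A.lam (A.lam d) = d := A.inv d
  have hee : A.lam (A.lam e) = e := A.inv e
  constructor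
  · rintro ⟨⟨x, hx⟩, h2⟩
    rcases hx with rfl | rfl
    · unfold pp at h2
      simp only at h2
      split_ifs at h2 with h3 h4 h5 h6
      · exact absurd ⟨_, Or.inr (by rw [h3])⟩ h2
      · exact absurd ⟨_, Or.inl (by rw [h3])⟩ h2
      · right
        refine ⟨?_, by rw [h6]⟩
        rw [h5, hee]
      · exact absurd ⟨_, Or.inl (by rw [h5])⟩ h2
      · exact absurd ⟨_, Or.inl rfl⟩ h2
    · unfold pp at h2
      simp only at h2
      split_ifs at h2 with h3 h4 h5 h6
      · exact absurd ⟨_, Or.inl (by rw [← h3, hdd])⟩ h2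
      · exact absurd ⟨_, Or.inr (by rw [h3])⟩ h2
      · left
        refine ⟨?_, by rw [h6]⟩
        rw [← hdd, h5, hee]
      · exact absurd ⟨_, Or.inr (by rw [h5])⟩ h2
      · exact absurd ⟨_, Or.inr rfl⟩ h2
  · rintro (⟨rfl, rfl⟩ | ⟨rfl, rfl⟩)
    · refine ⟨⟨0, Or.inr rfl⟩, ?_⟩
      simp [pp, inn, hd]
    · refine ⟨⟨0, Or.inl rfl⟩, ?_⟩
      simp [pp, inn, hd.symm, hdd]

/-- Simple covers without 3-edge-colouring. -/
lemma simple_cover (A : CG V) (hs : A.NS) (hn : ¬ A.Col4) :
    ∃ C : CG (V × Sh V), Cov A C Prod.fst ∧ C.Simp ∧ ¬ C.Col4 := by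
  classical
  set C := lift A (pp A) (pp_inv A hs) with hC
  have hcov : Cov A C Prod.fst := lift_cov A (pp A) (pp_inv A hs)
  have hlam : ∀ v s i, C.lam ((v, s), i) = (((A.lam (v, i)).1, pp A (v, i) s), (A.lam (v, i)).2) :=
    fun v s i => rfl
  refine ⟨C, hcov, ⟨?_, ?_⟩, ?_⟩
  · rintro ⟨v, s⟩ i h
    rw [hlam] at h
    exact pp_ne A hs (v, i) s (Prod.ext_iff.1 h).2
  · rintro ⟨v, s⟩ i j h
    rw [hlam, hlam] at h
    have := pp_inj A hs _ _ s (Prod.ext_iff.1 h).2
    exact (Prod.ext_iff.1 this).2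
  · rintro ⟨c, h1, h2, h3⟩
    apply hn
    refine ⟨fun d => c ((d.1, none), d.2), ?_, fun d => h2 _, fun v => h3 (v, none)⟩
    intro d
    have hd : A.lam d ≠ d := hs d
    have hcut := cut C (hcov.ns hs) c h1 h3 (fun w => inn A d w.2)
    have hset : (Finset.univ.filter
        (fun e : (V × Sh V) × Fin 3 => inn A d e.1.2 ∧ ¬ inn A d (C.lam e).1.2)) =
        {((d.1, some (A.lam d, 0)), d.2), (((A.lam d).1, some (d, 0)), (A.lam d).2)} := by
      ext ⟨⟨v, s⟩, i⟩
      simp only [Finset.mem_filter, Finset.mem_univ, true_and, Finset.mem_insert,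
        Finset.mem_singleton, hlam, inn_iff A hs]
      constructor
      · rintro (⟨rfl, rfl⟩ | ⟨h, rfl⟩)
        · left; rfl
        · right; rw [← h]
      · rintro (h | h)
        · left
          simp only [Prod.ext_iff] at h
          obtain ⟨⟨h1, h2⟩, h3⟩ := h
          exact ⟨Prod.ext h1 h3, h2⟩
        · right
          simp only [Prod.ext_iff] at h
          obtain ⟨⟨h1, h2⟩, h3⟩ := h
          exact ⟨Prod.ext h1 h3, h2⟩
    rw [hset, Finset.sum_pair] at hcut
    · have e1 := h1 ((d.1, some (A.lam d, 0)), d.2)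
      rw [hlam, Prod.mk.eta] at e1
      have e2 := h1 (((A.lam d).1, some (d, 0)), (A.lam d).2)
      rw [hlam, Prod.mk.eta, A.inv] at e2
      have p1 : pp A d (some (A.lam d, 0)) = none := by simp [pp, hd]
      have p2 : pp A (A.lam d) (some (d, 0)) = none := by simp [pp, hd.symm, A.inv]
      rw [p1] at e1
      rw [p2] at e2
      rw [← e1, ← e2] at hcut
      show c (((A.lam d).1, none), (A.lam d).2) = c ((d.1, none), d.2)
      have h5 := add_self_K4 (c ((d.1, none), d.2))
      exact add_right_cancel (hcut.trans h5.symm)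
    · intro h
      have := (Prod.ext_iff.1 (Prod.ext_iff.1 h).1).2
      simp at this
      exact hd this
end

end Pool.Agent.V11242.SC
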